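import Pool.Agent.H380.MT.Prf

/-!
# The conjecture of Birch and Swinnerton-Dyer modulo 2 over abelian number fields

The curves `C_j : y² = x³ + A j x + B j`: `j = 0, 1, 2, 3` are the four curves of conductor `17` (`C_3` has all
its points of order two rational), `C_4 = X_0(15)`, `C_5 = X_0(21)`, `C_6 = X_0(24)`.  `C_j^m` is the
quadratic twist by the squarefree integer `m`, and `tw t m` is the squarefree part of `t m`.  For an abelian
number field `F` (a subfield of a cyclotomic field) let `Rad F` be the finite set of the squarefree
integers `c` with `√c ∈ F` (so `1 ∈ Rad F`, and the other ones are the quadratic subfields of `F`).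

`ModTwo E`: the statement of the problem for an elliptic curve `E` over a number field, in the form of
the frozen statement, with the additional information that the two numbers are both even and that the
`L`-function has a meromorphic continuation to the plane, analytic at `1`.

`Over j T m`: `ModTwo` holds for `C_j^m` (all Weierstrass equations) over ALL the abelian number fields
`F`, of any degree, with `Rad F ⊆ T`.

(1) **A criterion.**  If for all `t ∈ T` the curve `C_j^(tm)` is in the family `Fam` (for `j ≤ 3`: `tm` is not a
square) and satisfies one of the following two equivalent conditions, then `Over j T m`: the group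
`C^(tm)(ℚ)` is finite and `Ш(C^(tm)/ℚ)[2] = 0`, where `C = C_3` for `j ≤ 3` and `C = C_j` for `j > 3`; or the explicit
criterion `Crit`: for `j ≤ 3` a matrix over `𝔽₂` (of Kronecker symbols) is nonsingular; for `j > 3` there is
no ideal class of order four in `ℚ(√(tm))`.
(2) **A positive proportion.**  In every class of the `m` given by conditions at finitely many places,
for which the root numbers of the curves `C_0^(tm)`, `t ∈ T`, are `1` and `t m < 0` for `t ∈ T'`, the lower
proportion of the `m` with `Over j T m` for `j ≤ 3`, and `Over j T' m` for those `j > 3` for which the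
integers `tw t m`, `t ∈ T'`, belong to the family, is at least `c ^ |T| η ^ |T'|`,
`c = (1 - 1/2) (1 - 1/8) (1 - 1/32) ⋯ = 0.4194...`, `η = (1 - 1/2) (1 - 1/4) (1 - 1/8) ⋯ = 0.2887...`.
(3), (4) For every abelian number field `F` whose quadratic subfields are real and unramified at `17`
(for instance for every real abelian field unramified at `17`) the conjecture modulo 2 holds over `F`,
and over all the abelian fields with the same quadratic subfields, for a positive lower density of the
twists `C_j^m`, `j ≤ 3`; the same is true of those `F` for which `(c / 17)` is the sign of `c` for all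
`c ∈ Rad F`; of `X_0(21)` if the quadratic subfields are real and unramified at `3` and `7`; of `X_0(24)` if
the `c ∈ Rad F` are positive and `1` modulo `24`; of `X_0(15)` if they are positive and `1` or `49` modulo `60`.
(5) For a lower proportion at least `c / 2 = 0.2097...` of ALL squarefree integers `m` the conjecture
modulo 2 holds for the four curves `C_j^m`, `j ≤ 3`, over all the abelian number fields of odd degree.

Proof.  The `L`-function of `C_j^m` over `F` is the product of the `L`-functions twisted by the characters
of `F`; the characters which are not real come in pairs, the real ones correspond to `Rad F`, and their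
central values are not zero by the 2-converse for the twists; the rank is treated in the same way
(library project `N856/MT`, run 63374d34, unpublished modules, made unconditional in
`Pool/Agent/H380/MT/Eng0.lean`; level 15: `Pool/Agent/H800/MT`, helper800).  The 2-converse and the joint law of the criteria for the twists by `t m`,
`t ∈ T`: `Pool/Agent/H743` (helper743), `Pool/Agent/H114` (`X_0(21)`), `Pool/Agent/H345` (`X_0(24)`), and
`Pool/Agent/H464` (`X_0(15)`).  The definitions are in `Pool/Agent/H380/MT/Def.lean`.
-/

set_option autoImplicit false

open Pool.Agent.H380.MT.AF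

namespace Pool.Agent.Results.MP_413b36_nt.AbelianFields

/-- **Main theorem.** -/
theorem result :
    -- (1) the criterion, for all the abelian fields `F` with `Rad F ⊆ T`
    (∀ (j : Fin 7) (T : Finset ℤ) (m : ℤ), Squarefree m →
      (∀ t ∈ T, Squarefree t ∧ Fam j (tw t m) ∧
        (Trivial2 (opt j) (tw t m) ∨ Crit j (tw t m))) → Over j T m) ∧
    -- (2) a positive proportion in every class of `m` with the right root numbers
    (∀ (T T' : Finset ℤ) (inf : Prop) (S : Finset ℕ) (d₀ : ℤ),
      (∀ t ∈ T, Squarefree t ∧ Root (tw t d₀)) → (∀ t ∈ T', Squarefree t ∧ tw t d₀ < 0) →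
      (∀ p ∈ S, p.Prime) → Squarefree d₀ →
      Pos (Cls T T' inf S d₀) ∧ LowProp (Cls T T' inf S d₀)
        (fun m => (∀ j : Fin 7, j ≤ 3 → Over j T m) ∧
          ∀ j : Fin 7, 4 ≤ j → (∀ t ∈ T', Fam j (tw t m)) → Over j T' m)
        (c ^ T.card * η ^ T'.card)) ∧
    -- (3) a positive lower density of twists, over all the abelian fields `F` with `Rad F ⊆ T`
    (∀ (j : Fin 7) (T : Finset ℤ), (∀ t ∈ T, Squarefree t ∧ Adm j t) →
      Pos fun m => ∀ i : Fin 7, opt i = opt j → Over i T m) ∧
    (∀ T : Finset ℤ, (∀ t ∈ T, Squarefree t ∧ ¬ (17 : ℤ) ∣ t ∧ (0 < t ↔ jacobiSym t 17 = 1)) →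
      Pos fun m => ∀ j : Fin 7, j ≤ 3 → Over j T m) ∧
    -- (4) in particular for every abelian field `F` with admitted radicals
    (∀ (n : ℕ) [NeZero n] (M : Type) [Field M] [NumberField M] [IsCyclotomicExtension {n} ℚ M]
      (F : IntermediateField ℚ M) (j : Fin 7), (∀ c : ℤ, Rad F c → Adm j c) →
        Pos fun m => ∀ i : Fin 7, opt i = opt j → OverF F i m) ∧
    -- (5) a lower proportion at least `c / 2` of all squarefree `m`, over all the abelian fields of
    -- odd degree
    LowProp (fun _ => True) OverOdd (c / 2) ∧
    0.4194 < c ∧ c < 0.4195 ∧ 0.2887 < η ∧ η < 0.2889 :=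
  ⟨part1, part2, part3, part3a', fun n _ M _ _ _ F j hF => part4 (n := n) M F j hF, part5, sim.2.2.2⟩

end Pool.Agent.Results.MP_413b36_nt.AbelianFields
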