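import Pool.Graph.R_pool_sql_team_seeded_63374d34.N19.BR.M2
import Pool.Agent.H329.LC.Lists

/-!
# The conjecture of Birch and Swinnerton-Dyer modulo 2: equivalence with the case of curves that look CM

`K` is a number field, `E` an elliptic curve over `K`, `L` a finite Galois extension of `K`, `S` a finite
set of primes of `K` and `R`, `N` natural numbers.  `E` looks CM modulo `m`
if there is an endomorphism `φ` of the group `E[m]` which does not act as an integer on `E[ℓ]` for any
prime `ℓ ∣ m`, such that for every `σ` in the absolute Galois group there are integers `a` and `b` with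
`σ φ σ⁻¹ = a + b φ` on `E[m]` (this holds for all `m` prime to the conductor of the order if `E` has
complex multiplication); modulo a prime `ℓ` it means that the image of the Galois group in `Aut(E[ℓ])` is
contained in a Borel subgroup or in the normaliser of a Cartan subgroup.  If `E` has no complex
multiplication, then it looks CM only modulo finitely many primes and only modulo finitely many powers
of a given prime (Serre).

The proof.  By Brauer induction with denominators prime to `2` a relation `∑ e_j [F_j] = m [K]` with an
odd integer `m` holds between permutation characters, where the Galois groups of `L' F_j / F_j` are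
`2`-hyperelementary for a given finite Galois extension `L'` of `K`, the local degrees at `S` are
divisible by `n` and the ranks of the groups `E(F_j)` are at least `R` if `j(E) ≠ 0, 1728`
(`Pool.Agent.N683.H2`).  With
`L' ⊇ K(E[N²])` the curve `E` looks CM over `F_j` modulo the divisors of `N` that are not divisible by `4`
(`Pool.Agent.H453.CM`): let `c` be a generator of the cyclic normal subgroup `C` of odd order and 2-power
index of the Galois group and `ℓ ^ k` a prime power dividing `N`; then `c = s + ℓ ^ a x` on `E[ℓ ^ (2k)]`
with an integer `s` and an `x` that is not scalar modulo `ℓ`, and `φ = x` is the endomorphism if `a < k`; if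
`a ≥ k` the image of the Galois group modulo the scalars is a `2`-group, and `φ` is a preimage of a central
element.  The relation between permutation characters gives relations between the ranks and the orders
of the `L`-functions (`Pool.Agent.N19.BR`).

The definitions are in `Pool.Agent.H329.LC.Defs`, `Lists` and `Pool.Agent.N19.BR.M2Defs`, `PDefs` and `Defs`; a
`Pool.Agent.R433.MD.Ext K` is a number field with the structure of a `K`-algebra.
-/

set_option autoImplicit false

namespace Pool.Agent.Results.MP_413b36_nt.LooksCMModTwo

open NumberField IsDedekindDomain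
open Pool.Agent.R433.MD (Ext)
open Pool.Agent.N19.BR.Def Pool.Agent.N19.BR.FDef Pool.Agent.N19.BR.M2Def
open Pool.Agent.H329.LC
open scoped Classical

/-- The set `U` is connected and contains `1` and the half plane `Re s > 3/2`. -/
def Region (U : Set ℂ) : Prop := IsPreconnected U ∧ 1 ∈ U ∧ ∀ s : ℂ, 3 / 2 < s.re → s ∈ U

/-- The conjecture modulo 2 with the meromorphic continuation, for one elliptic curve: `E(F)` has finite
rank, `L(E/F, s)` has a meromorphic continuation to `U`, and its order at `s = 1` has the same parity as
the rank. -/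
def Holds {F : Type} [Field F] [NumberField F] (U : Set ℂ) (E : WeierstrassCurve F) : Prop :=
  Continued U E ∧ ModTwo U E

/-- The first list of fields: `E(F_j)` has rank at least `R` (if `j(E) ≠ 0, 1728`), `E` looks CM over `F_j`
modulo all divisors of `N` that are not divisible by `4`, `2`-hyperelementary Galois groups and local
degrees divisible by `n`. -/
def Reduction {K : Type} [Field K] [NumberField K] (E : WeierstrassCurve K) [E.IsElliptic]
    (L : Type) [Field L] [Algebra K L] (S : Set (HeightOneSpectrum (𝓞 K))) (n N R : ℕ) : Prop :=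
  ∃ (k : ℕ) (Z : Fin k → Ext K) (J : Finset (Fin k)),
    (∀ j, RankIfGeneral R E (Z j) ∧ LooksCMTwo (E.map (algebraMap K (Z j).F)) N ∧
      TwoClass L S n (Z j)) ∧
      ∀ U : Set ℂ, Region U → ModTwoFormula U E Z J ∧
        ((∀ j, Continued U (E.map (algebraMap K (Z j).F))) →
          (∀ j ∈ J, ModTwo U (E.map (algebraMap K (Z j).F))) → ModTwo U E)

/-- The second list of fields: `E(F_j)` has rank at least `R` (if `j(E) ≠ 0, 1728`), and for a prime number
`p_j`, `E` looks CM over `F_j` modulo all divisors of `N` that are not divisible by `p_j ^ 2`, the Galois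
group is `p_j`-hyperelementary, the part of `n` prime to `p_j` divides the local degrees, and `F_j` has at
most two real places if `p_j ≠ 2`. -/
def ReductionOne {K : Type} [Field K] [NumberField K] (E : WeierstrassCurve K) [E.IsElliptic]
    (L : Type) [Field L] [Algebra K L] (S : Set (HeightOneSpectrum (𝓞 K))) (n N R : ℕ) : Prop :=
  ∃ (k : ℕ) (Z : Fin k → Ext K) (J : Finset (Fin k)),
    (∀ j, RankIfGeneral R E (Z j) ∧ ∃ p : ℕ, p.Prime ∧
      (∀ m : ℕ, m ∣ N → ¬ p ^ 2 ∣ m → LooksCM (E.map (algebraMap K (Z j).F)) m) ∧
      HyperelementaryOver p L (Z j) ∧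
      (∀ d : ℕ, d ∣ n → d.Coprime p → LocalDegreesDivisible S d (Z j)) ∧
      (p ≠ 2 → AtMostTwoRealPlaces (Z j))) ∧
      ∀ U : Set ℂ, Region U → ModTwoFormula U E Z J ∧
        ((∀ j, Holds U (E.map (algebraMap K (Z j).F))) → Holds U E)

/-- Both lists, for all elliptic curves over all number fields. -/
def ReductionForAll : Prop :=
  ∀ (K : Type) [Field K] [NumberField K] (E : WeierstrassCurve K) [E.IsElliptic]
    (L : Type) [Field L] [NumberField L] [Algebra K L] [IsGalois K L]
    (S : Set (HeightOneSpectrum (𝓞 K))), S.Finite → ∀ (n N R : ℕ), N ≠ 0 →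
      (Odd n → Reduction E L S n N R) ∧ (n ≠ 0 → ReductionOne E L S n N R)

/-- `P E` for all elliptic curves `E` over all number fields. -/
def ForAll (P : ∀ (K : Type) [Field K] [NumberField K], WeierstrassCurve K → Prop) : Prop :=
  ∀ (K : Type) [Field K] [NumberField K] (E : WeierstrassCurve K) [E.IsElliptic], P K E

/-- `P E` for all elliptic curves `E` over all number fields which have the property `C` and whose rank is
at least `R` or whose `j`-invariant is `0` or `1728`. -/
def ForLarge (R : ℕ) (C P : ∀ (K : Type) [Field K] [NumberField K], WeierstrassCurve K → Prop) :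
    Prop :=
  ∀ (K : Type) [Field K] [NumberField K] (E : WeierstrassCurve K) [E.IsElliptic], C K E →
    ((R : Cardinal) ≤ Module.rank ℤ E.toAffine.Point ∨ E.j = 0 ∨ E.j = 1728) → P K E

/-- **The conjecture of Birch and Swinnerton-Dyer modulo 2 and elliptic curves that look CM.**

(1) Let `E` be an elliptic curve over a number field `K`, `L/K` a finite Galois extension, `S` a finite
set of primes of `K`, `n` an odd positive integer, `N` a positive integer and `R` a natural number.  There
is a finite list of number fields `F_j ⊇ K` such that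
* `E(F_j)` has rank at least `R`, if `j(E) ≠ 0, 1728`;
* `E` looks CM over `F_j` modulo every divisor `m` of `N` with `4 ∤ m`;
* the Galois groups of `L F_j / F_j` are `2`-hyperelementary, and `n` divides the local degrees of all
  `F_j / K` at the primes above `S`;
* for a set `J` of indices and all connected `U` containing `1` and the half plane `Re s > 3/2`, for
  example `U = ℂ`, `ord_{s=1} L(E/K,s) - rk E(K) ≡ ∑_{j ∈ J} (ord_{s=1} L(E/F_j,s) - rk E(F_j))` modulo 2
  for all meromorphic continuations to `U`; so if all `L(E/F_j,s)` have such continuations and the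
  conjecture modulo 2 holds for `E` over the fields `F_j`, `j ∈ J`, then it holds for `E` over `K`.
For any `n ≥ 1` there is also such a list with the following conditions in the place of the second and the
third one: for some prime number `p_j`, `E` looks CM over `F_j` modulo all divisors of `N` not divisible by
`p_j ^ 2`, the Galois group of `L F_j / F_j` is `p_j`-hyperelementary, the part of `n` prime to `p_j`
divides the local degrees above `S`, and `F_j` has at most two real places if `p_j ≠ 2`; for this list the
meromorphic continuations of all `L(E/F_j,s)` imply moreover that of `L(E/K,s)`.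

Let `U` be connected with `1 ∈ U` and `Re s > 3/2` contained in `U`, for example `U = ℂ`, and `R` a
natural number.

(2) Let `N ≥ 1` be not divisible by `4`.  The conjecture modulo 2 together with the meromorphic
continuation to `U` holds for all elliptic curves over all number fields if and only if the continuation
exists for all of them and the conjecture modulo 2 holds for those which look CM modulo `N` and have rank
at least `R` or `j = 0` or `j = 1728`.

(3) Let `N ≥ 1` be squarefree.  The conjecture modulo 2 together with the meromorphic continuation to `U`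
holds for all elliptic curves over all number fields if and only if it holds for those which look CM
modulo `N` and have rank at least `R` or `j = 0` or `j = 1728`.

(4) The same with any `N ≥ 1`, if one asks that for some prime number `p`, which depends on the curve, the
curve looks CM modulo all divisors of `N` not divisible by `p ^ 2`. -/
theorem result :
    ReductionForAll ∧
    (∀ N : ℕ, ¬ 4 ∣ N → ∀ (R : ℕ) (U : Set ℂ), Region U →
      (ForAll (fun _ _ _ E => Holds U E) ↔ ForAll (fun _ _ _ E => Continued U E) ∧
        ForLarge R (fun _ _ _ E => LooksCM E N) fun _ _ _ E => ModTwo U E)) ∧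
    (∀ N : ℕ, Squarefree N → ∀ (R : ℕ) (U : Set ℂ), Region U →
      (ForAll (fun _ _ _ E => Holds U E) ↔
        ForLarge R (fun _ _ _ E => LooksCM E N) fun _ _ _ E => Holds U E)) ∧
    ∀ N : ℕ, N ≠ 0 → ∀ (R : ℕ) (U : Set ℂ), Region U →
      (ForAll (fun _ _ _ E => Holds U E) ↔
        ForLarge R (fun _ _ _ E => LooksCMSome E N) fun _ _ _ E => Holds U E) := by
  have main1 : ∀ (K : Type) [Field K] [NumberField K] (E : WeierstrassCurve K) [E.IsElliptic]
      (L : Type) [Field L] [NumberField L] [Algebra K L]
      [IsGalois K L] (S : Set (HeightOneSpectrum (𝓞 K))), S.Finite → ∀ n : ℕ,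
      Odd n → ∀ N : ℕ, N ≠ 0 → ∀ R : ℕ, Reduction E L S n N R := by
    intro K _ _ E hE L _ _ _ _ S hS n hn N hN R
    obtain ⟨k, Z, e, m, hm, hrel, hZ⟩ := looks_two E L hS hn hN R
    have h : ∀ U : Set ℂ, Region U →
        ModTwoFormula U E Z (Finset.univ.filter fun i => Odd (e i)) := fun U hU =>
      Pool.Agent.N19.BR.modTwo_formula hm hrel hU.1 hU.2.2 hU.2.1 hE
    exact ⟨k, Z, Finset.univ.filter fun i => Odd (e i), hZ, fun U hU =>
      ⟨h U hU, fun h2 h3 => Pool.Agent.N19.BR.modTwo_of_formula (h U hU) h2 h3⟩⟩
  have main2 : ∀ (K : Type) [Field K] [NumberField K] (E : WeierstrassCurve K) [E.IsElliptic]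
      (L : Type) [Field L] [NumberField L] [Algebra K L]
      [IsGalois K L] (S : Set (HeightOneSpectrum (𝓞 K))), S.Finite → ∀ n : ℕ,
      n ≠ 0 → ∀ N : ℕ, N ≠ 0 → ∀ R : ℕ, ReductionOne E L S n N R := by
    intro K _ _ E hE L _ _ _ _ S hS n hn N hN R
    obtain ⟨k, Z, e, hrel, hZ⟩ := looks_one E L hS hn hN R
    refine ⟨k, Z, Finset.univ.filter fun i => Odd (e i), hZ, fun U hU => ?_⟩
    have h : ModTwoFormula U E Z (Finset.univ.filter fun i => Odd (e i)) :=
      Pool.Agent.N19.BR.modTwo_formula odd_one hrel hU.1 hU.2.2 hU.2.1 hE
    refine ⟨h, fun h2 => ⟨⟨?_, ?_⟩, Pool.Agent.N19.BR.modTwo_of_formula h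
      (fun j => (h2 j).1) fun j _ => (h2 j).2⟩⟩
    · have h3 : ∀ j, ∃ r : ℕ, Module.rank ℤ (E.map (algebraMap K (Z j).F)).toAffine.Point = r :=
        fun j => (h2 j).1.1
      choose r hr using h3
      obtain ⟨r0, h4, -⟩ := Pool.Agent.N19.BR.rank_of_rel' one_ne_zero hrel E hr
      exact ⟨r0, h4⟩
    · exact Pool.Agent.N683.HR.cont_of_rel hrel hE fun j => (h2 j).1.2
  have four : ∀ N : ℕ, N ≠ 0 → ∀ (R : ℕ) (U : Set ℂ), Region U →
      (ForAll (fun _ _ _ E => Holds U E) ↔
        ForLarge R (fun _ _ _ E => LooksCMSome E N) fun _ _ _ E => Holds U E) := by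
    intro N hN R U hU
    refine ⟨fun h K _ _ E _ _ _ => h K E, fun h K _ _ E _ => ?_⟩
    obtain ⟨k, Z, J, hZ, h2⟩ := main2 K E K ∅ Set.finite_empty 1 one_ne_zero N hN R
    refine (h2 U hU).2 fun i => h (Z i).F _ ?_ (general_iff (hZ i).1)
    obtain ⟨p, hp, hcm, -⟩ := (hZ i).2
    exact ⟨p, hp, hcm⟩
  refine ⟨fun K _ _ E _ L _ _ _ _ S hS n N R hN =>
    ⟨fun hn => main1 K E L S hS n hn N hN R, fun hn => main2 K E L S hS n hn N hN R⟩,
    ?_, ?_, four⟩
  · intro N h4 R U hU
    have hN : N ≠ 0 := fun h => h4 (h ▸ dvd_zero 4)
    refine ⟨fun h => ⟨fun K _ _ E _ => (h K E).1, fun K _ _ E _ _ _ => (h K E).2⟩,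
      fun ⟨hc, h⟩ K _ _ E _ => ⟨hc K E, ?_⟩⟩
    obtain ⟨k, Z, J, hZ, h2⟩ := main1 K E K ∅ Set.finite_empty 1 odd_one N hN R
    exact (h2 U hU).2 (fun j => hc (Z j).F _) fun j _ => h (Z j).F _
      ((hZ j).2.1.self h4) (general_iff (hZ j).1)
  · intro N hN R U hU
    exact ⟨fun h K _ _ E _ _ _ => h K E, fun h => (four N hN.ne_zero R U hU).2
      fun K _ _ E _ hcm hE => h K E (hcm.self hN) hE⟩

end Pool.Agent.Results.MP_413b36_nt.LooksCMModTwo
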